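import Pool.Agent.H24.CL.TargetsK

/-!
# Row IT of the board clk_modules: the recursion is summed (after helper32's row IT for `k = 3`)
-/

set_option autoImplicit false

open Finset MeasureTheory Pool.Agent.H24.CL

namespace Pool.Agent.H33.CLK

theorem IT_base (hL2 : T_L2) (k : ℕ) (hk : 3 ≤ k) (M : ℝ) (N : ℕ) (hM : 1 ≤ M) (hMN : M ≤ N) :
    SM k M N ≤ ((N : ℝ) / M) ^ (KN k - 1) := by
  have hM0 : 0 < M := by linarith
  have hN0 : (0 : ℝ) < N := by linarith
  have hN1 : 1 ≤ N := by
    have : (0 : ℝ) < N := hN0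
    exact_mod_cast this
  have hI := hL2 k N (by omega) hN1
  have hint : Integrable (fun a : X k => ‖u N a‖ ^ 2) := by
    by_contra h
    rw [integral_undef h] at hI
    have : (0 : ℝ) < 1 / N := by positivity
    linarith
  have h1 : ∫ a : X k, max (M * ‖u N a‖ ^ 2 - 1 / 2) 0 ≤ ∫ a : X k, M * ‖u N a‖ ^ 2 := by
    refine integral_mono_of_nonneg ?_ (hint.const_mul M) ?_
    · exact Filter.Eventually.of_forall fun a => le_max_right _ _
    · refine Filter.Eventually.of_forall fun a => ?_
      show max (M * ‖u N a‖ ^ 2 - 1 / 2) 0 ≤ M * ‖u N a‖ ^ 2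
      refine max_le (by linarith) (by positivity)
  rw [integral_const_mul, hI] at h1
  have hK : 1 ≤ KN k := by
    unfold KN
    have h2 : 3 * 4 ≤ k * (k + 1) := Nat.mul_le_mul hk (by omega)
    omega
  obtain ⟨K, hKK⟩ : ∃ K : ℕ, KN k = K + 1 := ⟨KN k - 1, by omega⟩
  unfold SM
  rw [hKK, Nat.add_sub_cancel]
  calc ((N : ℝ) / M) ^ (K + 1) * ∫ a : X k, max (M * ‖u N a‖ ^ 2 - 1 / 2) 0
      ≤ ((N : ℝ) / M) ^ (K + 1) * (M * (1 / N)) := mul_le_mul_of_nonneg_left h1 (by positivity)
    _ = ((N : ℝ) / M) ^ K := by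
        rw [pow_succ]
        field_simp

theorem pf_IT (hOX : TK_OX) (hL2 : T_L2) : TK_IT := by
  intro k hk
  obtain ⟨c, c', y₀, C, hc0, hc1, hc', hC, hstep⟩ := hOX k hk
  obtain ⟨K, hKK⟩ : ∃ K : ℕ, K = KN k - 1 := ⟨_, rfl⟩
  set y₁ : ℝ := max y₀ 1 with hy₁
  have hy₁1 : 1 ≤ y₁ := le_max_right _ _
  have hcc : 0 < c' * c := mul_pos hc' hc0
  have hη : 0 < Real.exp (c' * c) - 1 := by
    have := Real.add_one_lt_exp (x := c' * c) hcc.ne'
    linarith
  set B : ℝ := C / (Real.exp (c' * c) - 1) with hB
  have hB0 : 0 ≤ B := div_nonneg hC hη.le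
  have hBη : B * (Real.exp (c' * c) - 1) = C := by
    rw [hB]; field_simp
  set A : ℝ := Real.exp (K * y₁) + B with hA
  have main : ∀ (M : ℝ), 1 ≤ M → ∀ (N : ℕ), M ≤ N →
      SM k M N ≤ A - B * Real.exp (-(c' * Real.log (N / M))) := by
    intro M hM N
    induction N using Nat.strong_induction_on with
    | _ N ih =>
      intro hMN
      have hM0 : 0 < M := by linarith
      have hN0 : (0 : ℝ) < N := by linarith
      have hy0 : 0 ≤ Real.log (N / M) := Real.log_nonneg (by rw [le_div_iff₀ hM0]; linarith)
      rcases lt_or_ge (Real.log (N / M)) y₁ with hlt | hge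
      · -- base
        have h1 := IT_base hL2 k hk M N hM hMN
        rw [← hKK] at h1
        have h2 : ((N : ℝ) / M) ^ K ≤ Real.exp (K * y₁) := by
          have h3 : ((N : ℝ) / M) = Real.exp (Real.log (N / M)) :=
            (Real.exp_log (by positivity)).symm
          rw [h3, ← Real.exp_nat_mul]
          apply Real.exp_le_exp.2
          exact mul_le_mul_of_nonneg_left hlt.le (Nat.cast_nonneg _)
        have h4 : B * Real.exp (-(c' * Real.log (N / M))) ≤ B := by
          have : Real.exp (-(c' * Real.log (N / M))) ≤ 1 := by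
            rw [Real.exp_le_one_iff]
            have := mul_nonneg hc'.le hy0
            linarith
          nlinarith
        linarith
      · have hy₀ : y₀ ≤ Real.log (N / M) := le_trans (le_max_left _ _) hge
        obtain ⟨N', hN'N, hMN', hlog, hSM⟩ := hstep M N hM hy₀
        have h1 := ih N' hN'N hMN'
        set y : ℝ := Real.log (N / M) with hy
        set y' : ℝ := Real.log (N' / M) with hy'
        have h2 : Real.exp (-(c' * ((1 - c) * y))) ≤ Real.exp (-(c' * y')) := by
          apply Real.exp_le_exp.2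
          have := mul_le_mul_of_nonneg_left hlog hc'.le
          linarith
        have h3 : Real.exp (-(c' * ((1 - c) * y))) =
            Real.exp (-(c' * y)) * Real.exp (c' * c * y) := by
          rw [← Real.exp_add]; congr 1; ring
        have h4 : Real.exp (c' * c) ≤ Real.exp (c' * c * y) := by
          apply Real.exp_le_exp.2
          have hy1 : 1 ≤ y := hy₁1.trans hge
          nlinarith
        have h5 : 0 < Real.exp (-(c' * y)) := Real.exp_pos _
        have h6 : C * Real.exp (-(c' * y)) ≤
            B * Real.exp (-(c' * y')) - B * Real.exp (-(c' * y)) := by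
          have h7 : B * (Real.exp (-(c' * y)) * Real.exp (c' * c * y)) ≤
              B * Real.exp (-(c' * y')) := by
            rw [← h3]; exact mul_le_mul_of_nonneg_left h2 hB0
          have h8 : B * (Real.exp (-(c' * y)) * Real.exp (c' * c)) ≤
              B * (Real.exp (-(c' * y)) * Real.exp (c' * c * y)) :=
            mul_le_mul_of_nonneg_left (mul_le_mul_of_nonneg_left h4 h5.le) hB0
          have h9 : C * Real.exp (-(c' * y)) =
              B * (Real.exp (-(c' * y)) * Real.exp (c' * c)) - B * Real.exp (-(c' * y)) := by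
            rw [← hBη]; ring
          linarith
        linarith
  refine ⟨A, by positivity, fun M N hM hMN => ?_⟩
  have := main M hM N hMN
  have h2 : 0 ≤ B * Real.exp (-(c' * Real.log (N / M))) := by positivity
  linarith

end Pool.Agent.H33.CLK
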