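import Pool.Agent.H24.CL.TargetsK

/-!
Row BD of the board clk_modules, first part: the four step inequalities in logarithms.
-/

set_option autoImplicit false

open Finset MeasureTheory

namespace Pool.Agent.H33.CLK

open Pool.Agent.H24.CL

theorem cnt_Ln {k q : ℕ} (hk : 1 ≤ k) (hq : 1 ≤ q) (W : Set (X k)) : Cnt (Ln k q) W (q : ℝ) := by
  classical
  intro Y _ hY
  rcases Y.eq_empty_or_nonempty with rfl | ⟨y0, hy0⟩
  · simp
  have hS := AddCircle.finite_torsion (𝕜 := ℝ) 1 (show 0 < q by omega)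
  have hc := AddCircle.card_torsion_le_of_isSMulRegular (𝕜 := ℝ) 1 q (by omega)
    (.of_right_eq_zero_of_smul fun _ ↦ by simp [show q ≠ 0 by omega])
  have h1 : Y.card ≤ hS.toFinset.card := by
    refine Finset.card_le_card_of_injOn (fun y => (y - y0) ⟨0, by omega⟩) ?_ ?_
    · intro y hy
      have h2 := (hY y hy y0 hy0).1
      have h3 := congrFun h2 ⟨0, by omega⟩
      simpa using h3
    · intro y hy y' hy' h
      have h2 := (hY y hy y' hy').2
      funext i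
      by_cases hi : i.val = 0
      · have hi0 : i = ⟨0, by omega⟩ := Fin.ext hi
        rw [hi0]
        simp only [Pi.sub_apply] at h
        exact sub_left_injective h
      · have h3 := h2 i hi
        rw [Pi.sub_apply] at h3
        exact sub_eq_zero.1 h3
  have h2 : hS.toFinset.card ≤ q := by
    rw [hS.encard_eq_coe_toFinset_card] at hc
    exact_mod_cast hc
  exact_mod_cast h1.trans h2

theorem cnt_H1 {k q : ℕ} (hq : 1 ≤ q) (W : Set (X k)) : Cnt (H k q 1) W ((q : ℝ) ^ k) := by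
  classical
  intro Y _ hY
  rcases Y.eq_empty_or_nonempty with rfl | ⟨y0, hy0⟩
  · simp
  have hS := AddCircle.finite_torsion (𝕜 := ℝ) 1 (show 0 < q by omega)
  have hc := AddCircle.card_torsion_le_of_isSMulRegular (𝕜 := ℝ) 1 q (by omega)
    (.of_right_eq_zero_of_smul fun _ ↦ by simp [show q ≠ 0 by omega])
  have h1 : Y.card ≤ (Fintype.piFinset fun _ : Fin k => hS.toFinset).card := by
    refine Finset.card_le_card_of_injOn (fun y => y - y0) ?_ ?_
    · intro y hy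
      have h2 : (nsmulAddMonoidHom (q ^ 1) : X k →+ X k) (y - y0) = 0 := hY y hy y0 hy0
      rw [Finset.mem_coe, Fintype.mem_piFinset]
      intro i
      have h3 := congrFun h2 i
      simpa using h3
    · intro y hy y' hy' h
      exact sub_left_injective h
  have h2 : hS.toFinset.card ≤ q := by
    rw [hS.encard_eq_coe_toFinset_card] at hc
    exact_mod_cast hc
  have h3 : (Fintype.piFinset fun _ : Fin k => hS.toFinset).card ≤ q ^ k := by
    rw [Fintype.card_piFinset]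
    simp only [Finset.prod_const, Finset.card_univ, Fintype.card_fin]
    exact Nat.pow_le_pow_left h2 k
  exact_mod_cast h1.trans h3

theorem ZB_nonneg {k q r : ℕ} {W : ℕ → Set (X k)} {R : ℕ → ℕ} {n G : ℕ → ℝ} {B : ℝ} (hk : 3 ≤ k)
    (hr : 1 ≤ r) (hL : Lev k q W R n G B) : 0 ≤ ZB k q r R n G := by
  unfold ZB
  refine mul_nonneg (Finset.prod_nonneg fun l hl => ?_) (Finset.prod_nonneg fun l hl => ?_)
  · rw [Finset.mem_Icc] at hl
    have := (hL.hn l hl.1 (by omega)).1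
    positivity
  · rw [Finset.mem_Icc] at hl
    have := hL.hG l (by omega) (by omega)
    positivity

/-- the four step inequalities with common constants -/
def Stp (k : ℕ) (C : ℝ) (c : ℕ) : Prop :=
  ∀ (q : ℕ) (W : ℕ → Set (X k)) (R : ℕ → ℕ) (n G : ℕ → ℝ) (B : ℝ),
      q.Prime → k < q → MeasurableSet (W 0) → MeasurableSet (W 1) → Lev k q W R n G B →
      (n 0 ≤ q → 1 ≤ G 0 → Car q (W 0) (W 1) (n 0) →
        Cnt (H k q 1) (W 0) ((Nat.factorial k : ℝ) * G 0 ^ k) → 2 * (k : ℝ) ≤ n 0 →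
        ((q : ℝ) ^ (KN k) * volume.real (W 0) ≤ C * B ^ c * ((G 0 ^ k * ((q : ℝ) / n 0) ^ k *
          ZB k q 1 R n G) * volume.real (W 1))) ∧
        (4 * ((k : ℝ) - 1) * (q * G 1) ≤ n 0 ^ 2 →
          (q : ℝ) ^ (KN k) * volume.real (W 0) ≤ C * B ^ c * ((G 0 ^ k *
            ((q : ℝ) / n 0) ^ (k - 1) * ZB k q 2 R n G) * volume.real (W 1))) ∧
        (Cnt (H k q 1) (W 1) ((Nat.factorial k : ℝ) * G 1 ^ k) →
          4 * ((k : ℝ) - 1) * (q * G 1) ≤ n 0 ^ 2 → 2 * (Nat.factorial k : ℝ) * G 1 ^ k ≤ n 0 →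
          (q : ℝ) ^ (KN k) * volume.real (W 0) ≤ C * B ^ c * ((G 0 ^ k * G 1 *
            (q : ℝ) ^ (k - 3) * ((q : ℝ) / n 0) ^ k * ZB k q 3 R n G) * volume.real (W 1)))) ∧
      (Car q (W 0) (W 1) 1 → ∀ r : ℕ, 1 ≤ r → r ≤ k →
        (r < k → Own k q r (W 0) (W 1) (2 * (k : ℝ))) →
        (q : ℝ) ^ (KN k) * volume.real (W 0) ≤ C * B ^ c * (((q : ℝ) ^ (1 + kr k r + (k - r)) *
          ZB k q r R n G) * volume.real (W 1)))

theorem cmono {C C' B Y : ℝ} {c c' : ℕ} (hB : 1 ≤ B) (hC : C' ≤ C) (hC' : 0 ≤ C') (hc : c' ≤ c)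
    (hY : 0 ≤ Y) : C' * B ^ c' * Y ≤ C * B ^ c * Y := by
  refine mul_le_mul_of_nonneg_right ?_ hY
  exact mul_le_mul hC (pow_le_pow_right₀ hB hc) (by positivity) (by linarith)

theorem steps (hS1 : TK_S1) (hS2 : TK_S2) (hS3 : TK_S3) (hS4 : TK_S4) (k : ℕ) (hk : 3 ≤ k) :
    ∃ (C : ℝ) (c : ℕ), 1 ≤ C ∧ Stp k C c := by
  obtain ⟨C1, c1, hC1, h1⟩ := hS1 k hk
  obtain ⟨C2, c2, hC2, h2⟩ := hS2 k hk
  obtain ⟨C3, c3, hC3, h3⟩ := hS3 k hk
  obtain ⟨C4, c4, hC4, h4⟩ := hS4 k hk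
  refine ⟨C1 + C2 + C3 + C4, c1 + c2 + c3 + c4, by linarith, ?_⟩
  intro q W R n G B hq hkq hm0 hm1 hL
  have hB := hL.hB
  have hG1 : 1 ≤ G 1 := hL.hG 1 le_rfl (by omega)
  have hv : 0 ≤ volume.real (W 1) := measureReal_nonneg
  have hq0 : (0 : ℝ) < q := by
    have := hq.pos
    exact_mod_cast this
  refine ⟨?_, ?_⟩
  · intro hnq hG0 hcar hcnt hn0
    have hk0 : (0 : ℝ) < k := by
      have : 0 < k := by omega
      exact_mod_cast this
    have hn00 : 0 < n 0 := by linarith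
    have hG00 : 0 < G 0 := by linarith
    have z1 := ZB_nonneg hk (le_refl 1) hL
    have z2 := ZB_nonneg hk (show 1 ≤ 2 by norm_num) hL
    have z3 := ZB_nonneg hk (show 1 ≤ 3 by norm_num) hL
    refine ⟨?_, ?_, ?_⟩
    · have h := h1 q W R n G B hq hkq hm0 hm1 hL hnq hG0 hcar hcnt hn0
      have hY : 0 ≤ (G 0 ^ k * ((q : ℝ) / n 0) ^ k * ZB k q 1 R n G) * volume.real (W 1) := by
        positivity
      refine le_trans (h.trans (le_of_eq ?_)) (cmono hB (show C1 ≤ _ by linarith) (by linarith)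
        (show c1 ≤ _ by omega) hY)
      ring
    · intro hc2
      have h := h2 q W R n G B hq hkq hm0 hm1 hL hnq hG0 hcar hcnt hn0 hc2
      have hY : 0 ≤ (G 0 ^ k * ((q : ℝ) / n 0) ^ (k - 1) * ZB k q 2 R n G) *
          volume.real (W 1) := by
        positivity
      refine le_trans (h.trans (le_of_eq ?_)) (cmono hB (show C2 ≤ _ by linarith) (by linarith)
        (show c2 ≤ _ by omega) hY)
      ring
    · intro hcnt1 hc2 hc3
      have h := h3 q W R n G B hq hkq hm0 hm1 hL hnq hG0 hcar hcnt hcnt1 hn0 hc2 hc3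
      have hY : 0 ≤ (G 0 ^ k * G 1 * (q : ℝ) ^ (k - 3) * ((q : ℝ) / n 0) ^ k *
          ZB k q 3 R n G) * volume.real (W 1) := by
        positivity
      refine le_trans (h.trans (le_of_eq ?_)) (cmono hB (show C3 ≤ _ by linarith) (by linarith)
        (show c3 ≤ _ by omega) hY)
      ring
  · intro hcar r hr1 hrk hown
    have h := h4 q W R n G B hq hkq hm0 hm1 hL hcar r hr1 hrk hown
    have z := ZB_nonneg hk hr1 hL
    have hY : 0 ≤ ((q : ℝ) ^ (1 + kr k r + (k - r)) * ZB k q r R n G) * volume.real (W 1) := by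
      positivity
    refine le_trans (h.trans (le_of_eq ?_)) (cmono hB (show C4 ≤ _ by linarith) (by linarith)
      (show c4 ≤ _ by omega) hY)
    ring

theorem ZB_log {k q r : ℕ} (hk : 3 ≤ k) (hr : 1 ≤ r) {Q : ℝ} (hQ : Q = (q : ℝ)) (hQ1 : 1 < Q)
    (g p : ℕ → ℝ) (R : ℕ → ℕ) (j : ℕ) (n G : ℕ → ℝ)
    (hn : ∀ l, 1 ≤ l → l + 2 ≤ k → n l = Q ^ (1 - p (j + l)))
    (hG : ∀ l, 1 ≤ l → l + 1 ≤ k → G l = Q ^ (min 1 (g (j + l)))) :
    ZB k q r (fun l => R (j + l)) n G = Q ^ (gcK k g j r + pcK k R p j r) := by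
  have hQ0 : 0 < Q := by linarith
  have h1 : ∏ l ∈ Icc 1 (k - 2), ((q : ℝ) / n l) ^ wt k r (R (j + l)) l =
      Q ^ (pcK k R p j r) := by
    unfold pcK
    rw [Real.rpow_sum_of_pos hQ0]
    refine Finset.prod_congr rfl fun l hl => ?_
    rw [Finset.mem_Icc] at hl
    rw [hn l hl.1 (by omega), ← hQ]
    have : Q / Q ^ (1 - p (j + l)) = Q ^ p (j + l) := by
      nth_rewrite 1 [← Real.rpow_one Q]
      rw [← Real.rpow_sub hQ0]
      congr 1
      ring
    rw [this, ← Real.rpow_natCast, ← Real.rpow_mul hQ0.le, mul_comm]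
  have h2 : ∏ l ∈ Icc r (k - 1), G l ^ (k - l) = Q ^ (gcK k g j r) := by
    unfold gcK
    rw [Real.rpow_sum_of_pos hQ0]
    refine Finset.prod_congr rfl fun l hl => ?_
    rw [Finset.mem_Icc] at hl
    rw [hG l (by omega) (by omega), ← Real.rpow_natCast, ← Real.rpow_mul hQ0.le, mul_comm]
  unfold ZB
  rw [h1, h2, ← Real.rpow_add hQ0, add_comm]

theorem step_log {k q : ℕ} (hk : 3 ≤ k) (hqp : q.Prime) (hkq : k < q) {Q rho C kap x : ℝ} {c : ℕ}
    (hQ : Q = (q : ℝ)) (hQ1 : 1 < Q) (hC : 1 ≤ C) (hK1 : 4 * ((k : ℝ) - 1) ≤ Q ^ kap)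
    (hK2 : 2 * (Nat.factorial k : ℝ) ≤ Q ^ kap) (hrho : 2 * (k : ℝ) ≤ rho) (hst : Stp k C c)
    (W : ℕ → Set (X k)) (n g p Gf : ℕ → ℝ) (R : ℕ → ℕ) (j : ℕ)
    (hW0 : MeasurableSet (W j)) (hW1 : MeasurableSet (W (j + 1)))
    (hn1 : ∀ l < k, 1 ≤ n (j + l)) (hnq : ∀ l < k, n (j + l) ≤ q)
    (hG1 : ∀ l < k, 1 ≤ Gf (j + l))
    (hgl : ∀ l < k, Q ^ g (j + l) = Gf (j + l)) (hpl : ∀ l < k, Q ^ (1 - p (j + l)) = n (j + l))
    (hcar : ∀ l < k, Car q (W (j + l)) (W (j + l + 1)) (n (j + l)))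
    (hln : ∀ l < k, Cnt (Ln k q) (W (j + l)) (Gf (j + l)))
    (hh1 : ∀ l < k, Cnt (H k q 1) (W (j + l)) ((Nat.factorial k : ℝ) * Gf (j + l) ^ k))
    (hpass : ∀ l < k, 1 ≤ R (j + l) →
      Pass k q (R (j + l)) (W (j + l)) (W (j + l + 1)) (rho ^ 2))
    (hown : 1 ≤ R j → R j < k → Own k q (R j + 1) (W j) (W (j + 1)) (rho ^ 2))
    (hbig : R j = 0 → rho ≤ n j) (hx : OptK k R g p kap j x) :
    Q ^ (KN k) * volume.real (W j) ≤
      C * (rho ^ 2) ^ c * (Q ^ ((KN k : ℝ) * (g j + p j) - x) * volume.real (W (j + 1))) := by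
  have hQ0 : 0 < Q := by linarith
  have hk3 : (3 : ℝ) ≤ k := by exact_mod_cast hk
  have hrho0 : 0 < rho := by linarith
  have hrho1 : 1 ≤ rho := by linarith
  obtain ⟨G, hG⟩ : ∃ G : ℕ → ℝ, G = fun i => if i = 0 then Gf j else min (Gf (j + i)) q :=
    ⟨_, rfl⟩
  have hG0 : G 0 = Gf j := by
    rw [hG]
    simp
  have hGl : ∀ l, 1 ≤ l → G l = min (Gf (j + l)) q := by
    intro l hl
    rw [hG]
    simp only
    rw [if_neg (by omega)]
  have hGlog : ∀ l, 1 ≤ l → l + 1 ≤ k → G l = Q ^ (min 1 (g (j + l))) := by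
    intro l hl hlk
    rw [hGl l hl, ← hgl l (by omega), ← hQ, min_comm]
    rcases le_total 1 (g (j + l)) with h | h
    · rw [min_eq_left h, min_eq_left, Real.rpow_one]
      calc Q = Q ^ (1 : ℝ) := (Real.rpow_one Q).symm
        _ ≤ Q ^ g (j + l) := Real.rpow_le_rpow_of_exponent_le hQ1.le h
    · rw [min_eq_right h, min_eq_right]
      calc Q ^ g (j + l) ≤ Q ^ (1 : ℝ) := Real.rpow_le_rpow_of_exponent_le hQ1.le h
        _ = Q := Real.rpow_one Q
  have hq1 : (1 : ℝ) ≤ (q : ℝ) := by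
    have := hqp.one_lt.le
    exact_mod_cast this
  have hLev : Lev k q (fun i => W (j + i)) (fun i => R (j + i)) (fun i => n (j + i)) G
      (rho ^ 2) := by
    refine ⟨one_le_pow₀ hrho1, ?_, ?_, ?_, ?_, ?_⟩
    · intro l hl hlk
      exact ⟨hn1 l (by omega), hnq l (by omega)⟩
    · intro l hl hlk
      exact hcar l (by omega)
    · intro l hl hlk
      rw [hGl l hl]
      exact le_min (hG1 l (by omega)) hq1
    · intro l hl hlk Y hY hYd
      rw [hGl l hl]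
      exact le_min (hln l (by omega) Y hY hYd) (cnt_Ln (by omega) hqp.one_lt.le (W (j + l)) Y hY hYd)
    · intro l hl hlk hR
      exact hpass l (by omega) hR
  obtain ⟨hA, hB⟩ := hst q (fun i => W (j + i)) (fun i => R (j + i)) (fun i => n (j + i)) G
    (rho ^ 2) hqp hkq hW0 hW1 hLev
  have e3 : Q / Q ^ (1 - p j) = Q ^ p j := by
    nth_rewrite 1 [← Real.rpow_one Q]
    rw [← Real.rpow_sub hQ0]
    congr 1
    ring
  have pw : ∀ (a : ℝ) (i : ℕ), (Q ^ a) ^ i = Q ^ ((i : ℝ) * a) := by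
    intro a i
    rw [mul_comm, Real.rpow_mul hQ0.le, Real.rpow_natCast]
  have hv1 : 0 ≤ volume.real (W (j + 1)) := measureReal_nonneg
  have fin : ∀ y Br : ℝ, Br ≤ Q ^ y → x ≤ (KN k : ℝ) * (g j + p j) - y →
      Q ^ (KN k) * volume.real (W j) ≤ C * (rho ^ 2) ^ c * (Br * volume.real (W (j + 1))) →
      Q ^ (KN k) * volume.real (W j) ≤
      C * (rho ^ 2) ^ c * (Q ^ ((KN k : ℝ) * (g j + p j) - x) * volume.real (W (j + 1))) := by
    intro y Br hy hxy h
    refine h.trans ?_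
    refine mul_le_mul_of_nonneg_left ?_ (by positivity)
    refine mul_le_mul_of_nonneg_right ?_ hv1
    exact hy.trans (Real.rpow_le_rpow_of_exponent_le hQ1.le (by linarith))
  have hgj : Gf j = Q ^ g j := (hgl 0 (by omega)).symm
  have hpj : n j = Q ^ (1 - p j) := (hpl 0 (by omega)).symm
  have hgj1 : Gf (j + 1) = Q ^ g (j + 1) := (hgl 1 (by omega)).symm
  have hzb : ∀ r, 1 ≤ r → ZB k q r (fun i => R (j + i)) (fun i => n (j + i)) G =
      Q ^ (gcK k g j r + pcK k R p j r) := by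
    intro r hr
    exact ZB_log hk hr hQ hQ1 g p R j _ G (fun l hl hlk => (hpl l (by omega)).symm) hGlog
  have hG1le : G 1 ≤ Q ^ g (j + 1) := by
    rw [hGl 1 le_rfl, ← hgj1]
    exact min_le_left _ _
  have hG1pos : 0 ≤ G 1 := by
    rw [hGlog 1 le_rfl (by omega)]
    positivity
  have c1 : g (j + 1) + 2 * p j ≤ 1 - kap → 4 * ((k : ℝ) - 1) * (q * G 1) ≤ n j ^ 2 := by
    intro h
    rw [hpj, pw]
    have h5 : Q ^ kap * (Q * Q ^ g (j + 1)) = Q ^ (kap + 1 + g (j + 1)) := by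
      rw [Real.rpow_add hQ0, Real.rpow_add hQ0, Real.rpow_one]
      ring
    have h6 : Q ^ (kap + 1 + g (j + 1)) ≤ Q ^ (((2 : ℕ) : ℝ) * (1 - p j)) :=
      Real.rpow_le_rpow_of_exponent_le hQ1.le (by push_cast; linarith)
    have h7 : 0 ≤ Q * Q ^ g (j + 1) := by positivity
    rw [← hQ]
    calc 4 * ((k : ℝ) - 1) * (Q * G 1) ≤ 4 * ((k : ℝ) - 1) * (Q * Q ^ g (j + 1)) := by
          refine mul_le_mul_of_nonneg_left ?_ (by linarith)
          exact mul_le_mul_of_nonneg_left hG1le hQ0.le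
      _ ≤ Q ^ kap * (Q * Q ^ g (j + 1)) := mul_le_mul_of_nonneg_right hK1 h7
      _ ≤ _ := by rw [h5]; exact h6
  have c2 : (k : ℝ) * g (j + 1) + p j ≤ 1 - kap → 2 * (Nat.factorial k : ℝ) * G 1 ^ k ≤ n j := by
    intro h
    rw [hpj]
    have h5 : Q ^ kap * Q ^ ((k : ℝ) * g (j + 1)) = Q ^ (kap + (k : ℝ) * g (j + 1)) := by
      rw [Real.rpow_add hQ0]
    have h6 : Q ^ (kap + (k : ℝ) * g (j + 1)) ≤ Q ^ (1 - p j) :=
      Real.rpow_le_rpow_of_exponent_le hQ1.le (by linarith)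
    have h7 : G 1 ^ k ≤ Q ^ ((k : ℝ) * g (j + 1)) := by
      rw [← pw]
      exact pow_le_pow_left₀ hG1pos hG1le k
    calc 2 * (Nat.factorial k : ℝ) * G 1 ^ k ≤ Q ^ kap * Q ^ ((k : ℝ) * g (j + 1)) :=
          mul_le_mul hK2 h7 (by positivity) (by positivity)
      _ ≤ Q ^ (1 - p j) := by rw [h5]; exact h6
  have big : R j = 0 → (Q ^ (KN k) * volume.real (W j) ≤ C * (rho ^ 2) ^ c * ((Gf j ^ k *
      (Q / n j) ^ k * ZB k q 1 (fun i => R (j + i)) (fun i => n (j + i)) G) *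
      volume.real (W (j + 1)))) ∧
      (4 * ((k : ℝ) - 1) * (q * G 1) ≤ n j ^ 2 →
        Q ^ (KN k) * volume.real (W j) ≤ C * (rho ^ 2) ^ c * ((Gf j ^ k *
        (Q / n j) ^ (k - 1) * ZB k q 2 (fun i => R (j + i)) (fun i => n (j + i)) G) *
        volume.real (W (j + 1)))) ∧
      (4 * ((k : ℝ) - 1) * (q * G 1) ≤ n j ^ 2 → 2 * (Nat.factorial k : ℝ) * G 1 ^ k ≤ n j →
        Q ^ (KN k) * volume.real (W j) ≤ C * (rho ^ 2) ^ c * ((Gf j ^ k * G 1 *
        Q ^ (k - 3) * (Q / n j) ^ k * ZB k q 3 (fun i => R (j + i)) (fun i => n (j + i)) G) *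
        volume.real (W (j + 1)))) := by
    intro hR
    have h := hA (hnq 0 (by omega)) (by rw [hG0]; exact hG1 0 (by omega)) (hcar 0 (by omega))
      (by rw [hG0]; exact hh1 0 (by omega)) (hrho.trans (hbig hR))
    simp only [Nat.add_zero, hG0] at h
    rw [← hQ] at h ⊢
    refine ⟨h.1, h.2.1, fun ha hb => h.2.2 ?_ ha hb⟩
    intro Y hY hYd
    rw [hGl 1 le_rfl]
    rcases le_total (Gf (j + 1)) q with hle | hle
    · rw [min_eq_left hle]
      exact hh1 1 (by omega) Y hY hYd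
    · rw [min_eq_right hle]
      have h1 := cnt_H1 hqp.one_lt.le (W (j + 1)) Y hY hYd
      have h2 : (1 : ℝ) ≤ (Nat.factorial k : ℝ) := by
        exact_mod_cast Nat.factorial_pos k
      have h3 : (0 : ℝ) ≤ (q : ℝ) ^ k := by positivity
      exact h1.trans (le_mul_of_one_le_left h3 h2)
  rcases hx with ⟨hR, hx⟩ | ⟨hR, ha, hx⟩ | ⟨hR, ha, hb, hx⟩ | ⟨hR, hx⟩
  · have h := (big hR).1
    rw [hzb 1 le_rfl, hgj, hpj, e3, pw, pw] at h
    refine fin (k * g j + k * p j + (gcK k g j 1 + pcK k R p j 1)) _ ?_ (by linarith) h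
    rw [← Real.rpow_add hQ0, ← Real.rpow_add hQ0]
  · have h := (big hR).2.1 (c1 ha)
    rw [hzb 2 (by norm_num), hgj, hpj, e3, pw, pw] at h
    have hk1 : ((k - 1 : ℕ) : ℝ) = (k : ℝ) - 1 := by
      rw [Nat.cast_sub (by omega), Nat.cast_one]
    rw [hk1] at h
    refine fin (k * g j + ((k : ℝ) - 1) * p j + (gcK k g j 2 + pcK k R p j 2)) _ ?_
      (by linarith) h
    rw [← Real.rpow_add hQ0, ← Real.rpow_add hQ0]
  · have h := (big hR).2.2 (c1 ha) (c2 hb)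
    rw [hzb 3 (by norm_num), hgj, hpj, e3, pw, pw] at h
    have hk1 : Q ^ (k - 3) = Q ^ ((k : ℝ) - 3) := by
      rw [← Real.rpow_natCast, Nat.cast_sub hk]
      norm_num
    rw [hk1] at h
    refine fin (k * g j + g (j + 1) + ((k : ℝ) - 3) + k * p j +
      (gcK k g j 3 + pcK k R p j 3)) _ ?_ (by linarith) h
    rw [Real.rpow_add hQ0 (k * g j + g (j + 1) + ((k : ℝ) - 3) + k * p j),
      Real.rpow_add hQ0 (k * g j + g (j + 1) + ((k : ℝ) - 3)),
      Real.rpow_add hQ0 (k * g j + g (j + 1)), Real.rpow_add hQ0 (k * g j)]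
    have h1 : 0 ≤ Q ^ ((k : ℝ) * g j) := by positivity
    have h2 : 0 ≤ Q ^ ((k : ℝ) - 3) * Q ^ ((k : ℝ) * p j) *
        Q ^ (gcK k g j 3 + pcK k R p j 3) := by positivity
    calc Q ^ ((k : ℝ) * g j) * G 1 * Q ^ ((k : ℝ) - 3) * Q ^ ((k : ℝ) * p j) *
          Q ^ (gcK k g j 3 + pcK k R p j 3)
        = Q ^ ((k : ℝ) * g j) * G 1 * (Q ^ ((k : ℝ) - 3) * Q ^ ((k : ℝ) * p j) *
          Q ^ (gcK k g j 3 + pcK k R p j 3)) := by ring
      _ ≤ Q ^ ((k : ℝ) * g j) * Q ^ g (j + 1) * (Q ^ ((k : ℝ) - 3) * Q ^ ((k : ℝ) * p j) *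
          Q ^ (gcK k g j 3 + pcK k R p j 3)) :=
          mul_le_mul_of_nonneg_right (mul_le_mul_of_nonneg_left hG1le h1) h2
      _ = _ := by ring
  · have hr1 : 1 ≤ min (R j + 1) k := le_min (by omega) (by omega)
    have hrk : min (R j + 1) k ≤ k := min_le_right _ _
    have h := hB (by
      intro w hw
      obtain ⟨D, hD1, hD2, hD3⟩ := hcar 0 (by omega) w hw
      exact ⟨D, hD1, hD2, (hn1 0 (by omega)).trans hD3⟩) (min (R j + 1) k) hr1 hrk (by
      intro hlt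
      have hRk : R j + 1 < k := by omega
      rw [min_eq_left hRk.le]
      intro z hz
      obtain ⟨D, hD1, hD2, hD3⟩ := hown hR (by omega) z hz
      refine ⟨D, hD1, hD2, le_trans ?_ hD3⟩
      calc 2 * (k : ℝ) ≤ rho := hrho
        _ = rho * 1 := (mul_one _).symm
        _ ≤ rho * rho := mul_le_mul_of_nonneg_left hrho1 hrho0.le
        _ = rho ^ 2 := by ring)
    simp only [Nat.add_zero] at h
    rw [← hQ, hzb _ hr1] at h
    refine fin (1 + (kr k (min (R j + 1) k) : ℝ) + ((k - min (R j + 1) k : ℕ) : ℝ) +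
      (gcK k g j (min (R j + 1) k) + pcK k R p j (min (R j + 1) k))) _ ?_ (by linarith) h
    rw [Real.rpow_add hQ0 _ (gcK k g j (min (R j + 1) k) + pcK k R p j (min (R j + 1) k)),
      ← Real.rpow_natCast, Nat.cast_add, Nat.cast_add, Nat.cast_one]

end Pool.Agent.H33.CLK
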